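import Pool.Agent.P.MP_c0e71b_lc.Tools

/-! Sums over the gaps between consecutive binary digits. -/

namespace Pool.Agent.P.MP_c0e71b_lc

open Pool.Agent.P.MP_0db899_lc

variable {α : Type} [Primcodable α]

theorem lt_of_testBit {n q : ℕ} (h : n.testBit q = true) : q < n :=
  lt_of_lt_of_le Nat.lt_two_pow_self (Nat.ge_two_pow_of_testBit h)

/-- The position of the first binary digit `1` of `n` at a position `≥ i`. -/
def fs (n i : ℕ) : ℕ := least (fun j => decide (i ≤ j) && n.testBit j) n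

@[fun_prop] theorem c_fs {f g : α → ℕ} (hf : Computable f) (hg : Computable g) :
    Computable fun a => fs (f a) (g a) := by
  unfold fs
  have h1 : Computable fun p : α × ℕ => f p.1 := by fun_prop
  have h2 : Computable fun p : α × ℕ => g p.1 := by fun_prop
  fun_prop

theorem fs_spec {n i q : ℕ} (hi : i ≤ q) (h : n.testBit q = true) :
    fs n i ≤ q ∧ i ≤ fs n i ∧ n.testBit (fs n i) = true ∧
      ∀ j, i ≤ j → j < fs n i → n.testBit j = false := by
  obtain ⟨h1, h2, h3⟩ := least_spec (f := fun j => decide (i ≤ j) && n.testBit j)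
    (lt_of_testBit h) (by simp [hi, h])
  refine ⟨h1, ?_, ?_, fun j hj hl => ?_⟩
  · simp only [Bool.and_eq_true, decide_eq_true_eq] at h2; exact h2.1
  · simp only [Bool.and_eq_true, decide_eq_true_eq] at h2; exact h2.2
  · simpa [hj] using h3 j hl

theorem fs_eq {n i q : ℕ} (hi : i ≤ q) (h : n.testBit q = true)
    (h0 : ∀ j, i ≤ j → j < q → n.testBit j = false) : fs n i = q := by
  obtain ⟨h1, h2, h3, -⟩ := fs_spec hi h
  by_contra hne
  have := h0 _ h2 (lt_of_le_of_ne h1 hne)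
  simp [h3] at this

theorem fs_congr {n n' i : ℕ} (h : ∀ j, i ≤ j → n.testBit j = n'.testBit j) :
    fs n i = fs n' i := by
  by_cases hex : ∃ q, i ≤ q ∧ n.testBit q = true
  · obtain ⟨q, hq, hb⟩ := hex
    obtain ⟨-, h2, h3, h4⟩ := fs_spec hq hb
    exact (fs_eq h2 (h _ h2 ▸ h3) fun j hj hl => h j hj ▸ h4 j hj hl).symm
  · push Not at hex
    have e1 : fs n i = 0 := least_none fun j _ => by
      by_cases hj : i ≤ j
      · simpa [hj] using hex j hj
      · simp [hj]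
    have e2 : fs n' i = 0 := least_none fun j _ => by
      by_cases hj : i ≤ j
      · simpa [hj, ← h j hj] using hex j hj
      · simp [hj]
    rw [e1, e2]

theorem fs_congr_le {n n' i q : ℕ} (hi : i ≤ q) (hq : n.testBit q = true)
    (h : ∀ j, j ≤ q → n.testBit j = n'.testBit j) : fs n i = fs n' i := by
  obtain ⟨h1, h2, h3, h4⟩ := fs_spec hi hq
  exact (fs_eq h2 (h _ h1 ▸ h3) fun j hj hl => h j (by omega) ▸ h4 j hj hl).symm

theorem testBit_add {y b q : ℕ} (hy : y < 2 ^ q) (hb : 2 ^ q ∣ b) (j : ℕ) :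
    (y + b).testBit j = if j < q then y.testBit j else b.testBit j := by
  obtain ⟨k, rfl⟩ := hb
  rw [add_comm, Nat.testBit_two_pow_mul_add k hy]
  split_ifs with h
  · rfl
  · rw [Nat.testBit_two_pow_mul]
    simp [not_lt.1 h]

theorem testBit_of_dvd {b q j : ℕ} (hb : 2 ^ q ∣ b) (hj : j < q) : b.testBit j = false := by
  have := testBit_add (y := 0) (Nat.two_pow_pos q) hb j
  simpa [hj] using this

theorem size_add {y b q : ℕ} (hy : y < 2 ^ q) (hb : 2 ^ q ∣ b) (h0 : 0 < b) :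
    (y + b).size = b.size := by
  refine le_antisymm ?_ (Nat.size_le_size (Nat.le_add_left _ _))
  rw [Nat.size_le]
  have h1 := Nat.lt_size_self b
  have h2 : q < b.size := Nat.lt_size.2 (Nat.le_of_dvd h0 hb)
  have h3 : 2 ^ q ∣ 2 ^ b.size := pow_dvd_pow 2 h2.le
  obtain ⟨k, hk⟩ := hb
  obtain ⟨m, hm⟩ := h3
  rw [hm] at h1 ⊢
  rw [hk] at h1 ⊢
  have h4 : k < m := lt_of_mul_lt_mul_left h1 (Nat.zero_le _)
  calc y + 2 ^ q * k < 2 ^ q + 2 ^ q * k := by omega
    _ = 2 ^ q * (k + 1) := by ring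
    _ ≤ 2 ^ q * m := Nat.mul_le_mul_left _ h4

/-- The position of the lowest binary digit `1`. -/
def lo (n : ℕ) : ℕ := fs n 0

@[fun_prop] theorem c_lo {f : α → ℕ} (hf : Computable f) : Computable fun a => lo (f a) := by
  unfold lo
  fun_prop

theorem lo_eq (l k : ℕ) : lo (2 ^ l * (2 * k + 1)) = l := by
  refine fs_eq (Nat.zero_le _) ?_ fun j _ hj => testBit_of_dvd (Dvd.intro _ rfl) hj
  rw [Nat.testBit_two_pow_mul]
  simp [Nat.testBit_zero]

theorem exists_lo {n : ℕ} (h : 0 < n) : ∃ k, n = 2 ^ lo n * (2 * k + 1) := by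
  obtain ⟨l, m, ⟨k, hk⟩, e⟩ := Nat.exists_eq_two_pow_mul_odd h.ne'
  refine ⟨k, ?_⟩
  have : lo n = l := by rw [e, hk, lo_eq]
  rw [this, e, hk]

theorem lo_dvd {n : ℕ} (h : 0 < n) : 2 ^ lo n ∣ n := by
  obtain ⟨k, hk⟩ := exists_lo h
  exact Dvd.intro _ hk.symm

theorem testBit_lo {n : ℕ} (h : 0 < n) : n.testBit (lo n) = true := by
  obtain ⟨k, hk⟩ := exists_lo h
  conv_lhs => arg 1; rw [hk]
  rw [Nat.testBit_two_pow_mul]
  simp [Nat.testBit_zero]

theorem lo_le {n j : ℕ} (h : n.testBit j = true) : lo n ≤ j := (fs_spec (Nat.zero_le _) h).1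

theorem le_lo {n j : ℕ} (h : 0 < n) (hj : 2 ^ j ∣ n) : j ≤ lo n := by
  by_contra hlt
  have := testBit_of_dvd hj (not_le.1 hlt)
  simp [testBit_lo h] at this

theorem lo_add {y b q : ℕ} (h0 : 0 < y) (hy : y < 2 ^ q) (hb : 2 ^ q ∣ b) : lo (y + b) = lo y := by
  have h1 : lo y < q := by
    have := Nat.ge_two_pow_of_testBit (testBit_lo h0)
    exact (Nat.pow_lt_pow_iff_right (by norm_num)).1 (lt_of_le_of_lt this hy)
  refine (fs_congr_le (Nat.zero_le _) (testBit_lo h0) fun j hj => ?_).symm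
  rw [testBit_add hy hb, if_pos (by omega)]

/-- Sum of `φ p q` over the digits `p < N` of `n`, `q` being the next digit. -/
def gs (φ : ℕ → ℕ → ℕ) (n N : ℕ) : ℕ :=
  bsum (fun p => cond (n.testBit p) (φ p (fs n (p + 1))) 0) N

theorem gs_eq (φ : ℕ → ℕ → ℕ) (n N : ℕ) : gs φ n N =
    ∑ p ∈ Finset.range N, cond (n.testBit p) (φ p (fs n (p + 1))) 0 := bsum_eq _ _

@[fun_prop] theorem c_gs {φ : α → ℕ → ℕ → ℕ} {f g : α → ℕ}
    (hφ : Computable fun p : α × ℕ × ℕ => φ p.1 p.2.1 p.2.2) (hf : Computable f)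
    (hg : Computable g) : Computable fun a => gs (φ a) (f a) (g a) := by
  unfold gs
  have h1 : Computable fun p : α × ℕ => f p.1 := by fun_prop
  have h2 : Computable fun p : α × ℕ => φ p.1 p.2 (fs (f p.1) (p.2 + 1)) :=
    hφ.comp (g := fun p : α × ℕ => (p.1, p.2, fs (f p.1) (p.2 + 1))) (by fun_prop)
  fun_prop

/-- The gap sum of `y + b` splits into a part depending on `y` and the lowest digit of `b`,
and a part depending on `b` only. -/
theorem gs_add (φ : ℕ → ℕ → ℕ) {b q N : ℕ} (hb : 2 ^ q ∣ b) (hq : b.testBit q = true)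
    (hN : q ≤ N) : ∃ U, ∀ y < 2 ^ q, gs φ (y + b) N = gs φ (y + 2 ^ q) q + U := by
  refine ⟨∑ p ∈ Finset.Ico q N, cond (b.testBit p) (φ p (fs b (p + 1))) 0, fun y hy => ?_⟩
  rw [gs_eq, gs_eq, ← Finset.sum_range_add_sum_Ico _ hN]
  congr 1
  · refine Finset.sum_congr rfl fun p hp => ?_
    have hp' : p < q := Finset.mem_range.1 hp
    have e : ∀ j, j ≤ q → (y + b).testBit j = (y + 2 ^ q).testBit j := by
      intro j hj
      rw [testBit_add hy hb, testBit_add hy dvd_rfl]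
      split_ifs with h
      · rfl
      · obtain rfl : j = q := by omega
        rw [hq, Nat.testBit_two_pow_self]
    rw [e p hp'.le, fs_congr_le (n := y + b) (n' := y + 2 ^ q) (q := q) hp' ?_ e]
    rw [testBit_add hy hb, if_neg (lt_irrefl _), hq]
  · refine Finset.sum_congr rfl fun p hp => ?_
    have hp' : q ≤ p := (Finset.mem_Ico.1 hp).1
    rw [testBit_add hy hb, if_neg (by omega), fs_congr (n := y + b) (n' := b)]
    intro j hj
    rw [testBit_add hy hb, if_neg (by omega)]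

theorem gs_zero (φ : ℕ → ℕ → ℕ) {n p q : ℕ} (hp : p ≤ q)
    (h : ∀ j, p ≤ j → j < q → n.testBit j = false) : gs φ n q = gs φ n p := by
  rw [gs_eq, gs_eq, ← Finset.sum_range_add_sum_Ico _ hp, Finset.sum_eq_zero (s := Finset.Ico p q)]
  · rfl
  · intro j hj
    rw [h j (Finset.mem_Ico.1 hj).1 (Finset.mem_Ico.1 hj).2]
    rfl

/-- If `p` is the top digit of `x` and `p < q`, the last gap of `x + 2 ^ q` is `(p, q)`. -/
theorem gs_top (φ : ℕ → ℕ → ℕ) {x p q : ℕ} (h1 : 2 ^ p ≤ x) (h2 : x < 2 ^ (p + 1)) (hp : p < q) :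
    gs φ (x + 2 ^ q) q = gs φ (x + 2 ^ q) p + φ p q := by
  have hx : x < 2 ^ q := lt_of_lt_of_le h2 (Nat.pow_le_pow_right (by norm_num) hp)
  have h0 : ∀ j, p + 1 ≤ j → j < q → (x + 2 ^ q).testBit j = false := by
    intro j hj hl
    rw [testBit_add hx dvd_rfl, if_pos hl]
    exact Nat.testBit_lt_two_pow (lt_of_lt_of_le h2 (Nat.pow_le_pow_right (by norm_num) hj))
  have hb : (x + 2 ^ q).testBit p = true := by
    rw [testBit_add hx dvd_rfl, if_pos hp]
    exact Nat.testBit_of_two_pow_le_and_two_pow_add_one_gt h1 h2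
  have hq : (x + 2 ^ q).testBit q = true := by
    rw [testBit_add hx dvd_rfl, if_neg (lt_irrefl _), Nat.testBit_two_pow_self]
  rw [gs_zero φ hp h0, gs_eq, gs_eq, Finset.sum_range_succ, hb, fs_eq hp hq h0]
  rfl

end Pool.Agent.P.MP_c0e71b_lc
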