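import Pool.Agent.P.MP_c0e71b_lc.Bits

/-! The colouring and its computability. -/

namespace Pool.Agent.P.MP_c0e71b_lc

open Pool.Agent.P.MP_0db899_lc

variable {α : Type} [Primcodable α]

def code (e x u v : ℕ) : ℕ := Nat.pair e (Nat.pair x (Nat.pair u v))

def bd (q : ℕ) : ℕ := code (2 ^ q) (2 ^ q) (2 ^ q) (2 ^ q) + 1

theorem pair_le_pair {a b c d : ℕ} (h1 : a ≤ c) (h2 : b ≤ d) : Nat.pair a b ≤ Nat.pair c d := by
  have e1 : Nat.pair a b ≤ Nat.pair c b := by
    rcases h1.eq_or_lt with rfl | h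
    · exact le_rfl
    · exact (Nat.pair_lt_pair_left b h).le
  have e2 : Nat.pair c b ≤ Nat.pair c d := by
    rcases h2.eq_or_lt with rfl | h
    · exact le_rfl
    · exact (Nat.pair_lt_pair_right c h).le
  exact e1.trans e2

theorem code_lt {e x u v q : ℕ} (he : e ≤ 2 ^ q) (hx : x ≤ 2 ^ q) (hu : u ≤ 2 ^ q)
    (hv : v ≤ 2 ^ q) : code e x u v < bd q :=
  Nat.lt_succ_of_le (pair_le_pair he (pair_le_pair hx (pair_le_pair hu hv)))

theorem bd_mono {p q : ℕ} (h : p ≤ q) : bd p ≤ bd q := by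
  have := Nat.pow_le_pow_right (show 0 < 2 by norm_num) h
  exact code_lt this this this this

section

variable (P : ℕ → ℕ → Bool)

/-- `x` passes the first `k` tests for membership in the `e`-th set, with witnesses below `q`. -/
def ok (s e x k q : ℕ) : Bool := ball (fun u => bex (fun v => P s (code e x u v)) q) k

def pickG (p q s e : ℕ) (L : List ℕ) : ℕ :=
  least (fun z => ok P s e z p q && ball (fun e' => !decide (lo (L.getD e' 0) = lo z)) e) p

/-- The element chosen for requirement `e`. -/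
def pick (p q s e : ℕ) : ℕ := cov (pickG P p q s) e

/-- The requirement served at lowest digit `l`. -/
def who (l p q s : ℕ) : ℕ := least (fun e => decide (lo (pick P p q s e) = l)) p

def cand (l p z a : ℕ) : Bool :=
  decide (z < a) && decide (2 ^ p ≤ z + a) && decide (z + a < 2 ^ (p + 1)) &&
    decide (lo (z + a) = l)

def lev (l p q s e z : ℕ) : ℕ :=
  least (fun i => bex (fun a => cand l p z a && ok P s e a (q - i) q) (2 ^ (p + 1))) (q + 1)

/-- The guess for the middle element. -/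
def mid (l p q s e z : ℕ) : ℕ :=
  least (fun a => cand l p z a && ok P s e a (q - lev P l p q s e z) q) (2 ^ (p + 1))

def phiH (s p q z a : ℕ) (L : List ℕ) : ℕ :=
  1 + gs (fun p' q' => L.getD (p' * s + q') 0) (z + a + 2 ^ q) p +
    gs (fun p' q' => L.getD (p' * s + q') 0) (z + 2 ^ q) p

def phiG (l s m : ℕ) (L : List ℕ) : ℕ :=
  phiH s (m / s) (m % s) (pick P (m / s) (m % s) s (who P l (m / s) (m % s) s))
    (mid P l (m / s) (m % s) s (who P l (m / s) (m % s) s)
      (pick P (m / s) (m % s) s (who P l (m / s) (m % s) s))) L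

def phi (l s p q : ℕ) : ℕ := cov (phiG P l s) (p * s + q)

def psi (s p q : ℕ) : ℕ := cond (ball (fun t => !P q t || P s t) (bd p)) 1 0

/-- The colouring with eight colours. -/
def col (n : ℕ) : ℕ :=
  lo n % 2 + 2 * (gs (psi P n.size) n n.size % 2) + 4 * (gs (phi P (lo n) n.size) n n.size % 2)

end

section

variable {P : ℕ → ℕ → Bool} (hP : Computable fun p : ℕ × ℕ => P p.1 p.2)
include hP

theorem c_P {f g : α → ℕ} (hf : Computable f) (hg : Computable g) :
    Computable fun a => P (f a) (g a) := hP.comp (g := fun a => (f a, g a)) (by fun_prop)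

theorem c_ok0 : Computable fun a : ℕ × ℕ × ℕ × ℕ × ℕ =>
    ok P a.1 a.2.1 a.2.2.1 a.2.2.2.1 a.2.2.2.2 := by
  unfold ok code
  refine c_ball (c_bex (c_P hP ?_ ?_) ?_) ?_ <;> fun_prop

theorem c_ok {s e x k q : α → ℕ} (hs : Computable s) (he : Computable e) (hx : Computable x)
    (hk : Computable k) (hq : Computable q) :
    Computable fun a => ok P (s a) (e a) (x a) (k a) (q a) :=
  (c_ok0 hP).comp (g := fun a => (s a, e a, x a, k a, q a)) (by fun_prop)

theorem c_pick0 : Computable fun a : ℕ × ℕ × ℕ × ℕ => pick P a.1 a.2.1 a.2.2.1 a.2.2.2 := by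
  unfold pick pickG
  refine c_cov (c_least (c_and (c_ok hP ?_ ?_ ?_ ?_ ?_) (c_ball ?_ ?_)) ?_) ?_ <;> fun_prop

theorem c_pick {p q s e : α → ℕ} (hp : Computable p) (hq : Computable q) (hs : Computable s)
    (he : Computable e) : Computable fun a => pick P (p a) (q a) (s a) (e a) :=
  (c_pick0 hP).comp (g := fun a => (p a, q a, s a, e a)) (by fun_prop)

theorem c_who0 : Computable fun a : ℕ × ℕ × ℕ × ℕ => who P a.1 a.2.1 a.2.2.1 a.2.2.2 := by
  unfold who
  refine c_least (c_decEq (c_lo (c_pick hP ?_ ?_ ?_ ?_)) ?_) ?_ <;> fun_prop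

theorem c_who {l p q s : α → ℕ} (hl : Computable l) (hp : Computable p) (hq : Computable q)
    (hs : Computable s) : Computable fun a => who P (l a) (p a) (q a) (s a) :=
  (c_who0 hP).comp (g := fun a => (l a, p a, q a, s a)) (by fun_prop)

omit hP in
theorem c_cand {l p z x : α → ℕ} (hl : Computable l) (hp : Computable p) (hz : Computable z)
    (hx : Computable x) : Computable fun a => cand (l a) (p a) (z a) (x a) := by
  unfold cand
  fun_prop

theorem c_lev0 : Computable fun a : ℕ × ℕ × ℕ × ℕ × ℕ × ℕ =>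
    lev P a.1 a.2.1 a.2.2.1 a.2.2.2.1 a.2.2.2.2.1 a.2.2.2.2.2 := by
  unfold lev
  refine c_least (c_bex (c_and (c_cand ?_ ?_ ?_ ?_) (c_ok hP ?_ ?_ ?_ ?_ ?_)) ?_) ?_ <;> fun_prop

theorem c_lev {l p q s e z : α → ℕ} (hl : Computable l) (hp : Computable p) (hq : Computable q)
    (hs : Computable s) (he : Computable e) (hz : Computable z) :
    Computable fun a => lev P (l a) (p a) (q a) (s a) (e a) (z a) :=
  (c_lev0 hP).comp (g := fun a => (l a, p a, q a, s a, e a, z a)) (by fun_prop)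

theorem c_mid0 : Computable fun a : ℕ × ℕ × ℕ × ℕ × ℕ × ℕ =>
    mid P a.1 a.2.1 a.2.2.1 a.2.2.2.1 a.2.2.2.2.1 a.2.2.2.2.2 := by
  unfold mid
  refine c_least (c_and (c_cand ?_ ?_ ?_ ?_)
    (c_ok hP ?_ ?_ ?_ (c_sub ?_ (c_lev hP ?_ ?_ ?_ ?_ ?_ ?_)) ?_)) ?_ <;> fun_prop

theorem c_mid {l p q s e z : α → ℕ} (hl : Computable l) (hp : Computable p) (hq : Computable q)
    (hs : Computable s) (he : Computable e) (hz : Computable z) :
    Computable fun a => mid P (l a) (p a) (q a) (s a) (e a) (z a) :=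
  (c_mid0 hP).comp (g := fun a => (l a, p a, q a, s a, e a, z a)) (by fun_prop)

omit hP in
theorem c_phiH0 : Computable fun a : ℕ × ℕ × ℕ × ℕ × ℕ × List ℕ =>
    phiH a.1 a.2.1 a.2.2.1 a.2.2.2.1 a.2.2.2.2.1 a.2.2.2.2.2 := by
  unfold phiH
  refine c_add (c_add ?_ (c_gs ?_ ?_ ?_)) (c_gs ?_ ?_ ?_) <;> fun_prop

omit hP in
theorem c_phiH {s p q z x : α → ℕ} {L : α → List ℕ} (hs : Computable s) (hp : Computable p)
    (hq : Computable q) (hz : Computable z) (hx : Computable x) (hL : Computable L) :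
    Computable fun a => phiH (s a) (p a) (q a) (z a) (x a) (L a) :=
  c_phiH0.comp (g := fun a => (s a, p a, q a, z a, x a, L a)) (by fun_prop)

theorem c_phi0 : Computable fun a : ℕ × ℕ × ℕ × ℕ => phi P a.1 a.2.1 a.2.2.1 a.2.2.2 := by
  unfold phi phiG
  refine c_cov (c_phiH ?_ ?_ ?_ (c_pick hP ?_ ?_ ?_ (c_who hP ?_ ?_ ?_ ?_))
    (c_mid hP ?_ ?_ ?_ ?_ (c_who hP ?_ ?_ ?_ ?_) (c_pick hP ?_ ?_ ?_ (c_who hP ?_ ?_ ?_ ?_))) ?_)
    ?_ <;> fun_prop

theorem c_col : Computable (col P) := by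
  unfold col
  have h1 : Computable fun a : ℕ × ℕ × ℕ => psi P a.1.size a.2.1 a.2.2 := by
    unfold psi bd code
    refine c_cond (c_ball (c_or (c_not (c_P hP ?_ ?_)) (c_P hP ?_ ?_)) ?_) ?_ ?_ <;> fun_prop
  have h2 : Computable fun a : ℕ × ℕ × ℕ => phi P (lo a.1) a.1.size a.2.1 a.2.2 :=
    (c_phi0 hP).comp (g := fun a : ℕ × ℕ × ℕ => (lo a.1, a.1.size, a.2.1, a.2.2)) (by fun_prop)
  refine c_add (c_add ?_ (c_mul ?_ (c_mod (c_gs h1 ?_ ?_) ?_))) (c_mul ?_ (c_mod (c_gs h2 ?_ ?_) ?_))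
    <;> fun_prop

end

theorem col_lt (P : ℕ → ℕ → Bool) (n : ℕ) : col P n < 8 := by
  unfold col
  omega

/-- The diagonal equation. -/
theorem phi_eq (P : ℕ → ℕ → Bool) {l s p q z a : ℕ} (hp : p < q) (hq : q < s)
    (hz : pick P p q s (who P l p q s) = z) (ha : mid P l p q s (who P l p q s) z = a)
    (h1 : z + a < 2 ^ q) :
    phi P l s p q = 1 + gs (phi P l s) (z + a + 2 ^ q) p + gs (phi P l s) (z + 2 ^ q) p := by
  have e1 : (p * s + q) / s = p := by
    rw [add_comm, Nat.add_mul_div_right _ _ (by omega), Nat.div_eq_of_lt hq, zero_add]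
  have e2 : (p * s + q) % s = q := by
    rw [add_comm, Nat.add_mul_mod_self_right, Nat.mod_eq_of_lt hq]
  have key : ∀ y < 2 ^ q, gs (fun p' q' => (tab (phiG P l s) (p * s + q)).getD (p' * s + q') 0)
      (y + 2 ^ q) p = gs (phi P l s) (y + 2 ^ q) p := by
    intro y hy
    rw [gs_eq, gs_eq]
    refine Finset.sum_congr rfl fun j hj => ?_
    have hj' : j < p := Finset.mem_range.1 hj
    have hb : (y + 2 ^ q).testBit q = true := by
      rw [testBit_add hy dvd_rfl, if_neg (lt_irrefl _), Nat.testBit_two_pow_self]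
    have h3 := (fs_spec (show j + 1 ≤ q by omega) hb).1
    have h4 : j * s + fs (y + 2 ^ q) (j + 1) < p * s + q := by
      have : (j + 1) * s ≤ p * s := Nat.mul_le_mul_right _ hj'
      rw [add_mul] at this
      omega
    rw [tab_getD _ h4]
    rfl
  have e3 : ∀ L, phiG P l s (p * s + q) L = phiH s p q z a L := by
    intro L
    unfold phiG
    rw [e1, e2, hz, ha]
  have e4 : phi P l s p q = phiG P l s (p * s + q) (tab (phiG P l s) (p * s + q)) := rfl
  rw [e4, e3]
  unfold phiH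
  rw [key _ h1, key _ (by omega)]

end Pool.Agent.P.MP_c0e71b_lc
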