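import Pool.Agent.P.MP_c0e71b_lc.Constr

/-! No infinite set of the given form is homogeneous. -/

namespace Pool.Agent.P.MP_c0e71b_lc

open Pool.Agent.P.MP_0db899_lc

theorem exists_bound {Q : ℕ → ℕ → Prop} (hm : ∀ x k k', k ≤ k' → Q x k → Q x k')
    (h : ∀ x, ∃ k, Q x k) (X : ℕ) : ∃ K, ∀ x < X, Q x K := by
  choose f hf using h
  exact ⟨(Finset.range X).sup f, fun x hx =>
    hm x _ _ (Finset.le_sup (f := f) (Finset.mem_range.2 hx)) (hf x)⟩

/-- The lowest digits of the elements of a homogeneous set are unbounded. -/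
theorem lo_unbounded {H : Set ℕ} (h0 : ∀ x ∈ H, 0 < x) (hi : H.Infinite)
    (h2 : ∀ x ∈ H, ∀ y ∈ H, x < y → lo (x + y) % 2 = lo x % 2) (j : ℕ) :
    ∃ a ∈ H, j ≤ lo a := by
  by_contra hn
  push Not at hn
  obtain ⟨x, hx, y, hy, hlt, he⟩ := hi.exists_lt_map_eq_of_mapsTo
    (f := fun a => a % 2 ^ (j + 1)) (t := Set.Iio (2 ^ (j + 1)))
    (fun a _ => Nat.mod_lt _ (Nat.two_pow_pos _)) (Set.finite_Iio _)
  obtain ⟨d, hd⟩ : 2 ^ (j + 1) ∣ y - x := (Nat.modEq_iff_dvd' hlt.le).1 he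
  obtain ⟨k, hk⟩ := exists_lo (h0 x hx)
  obtain ⟨r, hr⟩ : ∃ r, j = lo x + 1 + r := ⟨j - (lo x + 1), by have := hn x hx; omega⟩
  have e : x + y = 2 ^ (lo x + 1) * (2 * (k + 2 ^ r * d) + 1) := by
    have e1 : y = x + 2 ^ (j + 1) * d := by omega
    generalize lo x = l at *
    rw [e1, hk, hr]
    ring
  have := h2 x hx y hy hlt
  rw [e, lo_eq] at this
  omega

variable {P : ℕ → ℕ → Bool}

/-- Every element of a homogeneous set has a long gap. -/
theorem long_gap (hm : ∀ s s' t, s ≤ s' → P s' t = true → P s t = true) {H : Set ℕ}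
    (h0 : ∀ x ∈ H, 0 < x) (hu : ∀ j, ∃ a ∈ H, j ≤ lo a)
    (h2 : ∀ x ∈ H, ∀ y ∈ H, x < y → gs (psi P (x + y).size) (x + y) (x + y).size % 2
      = gs (psi P y.size) y y.size % 2) {b : ℕ} (hb : b ∈ H) {t : ℕ} (ht : t < bd (lo b))
    (hp : P b.size t = true) (s : ℕ) : P s t = true := by
  obtain ⟨M, hM⟩ := exists_bound (Q := fun t k => P k t = true → ∀ s, P s t = true)
    (fun t k k' hk h h' => h (hm _ _ _ hk h')) (fun t => by
      by_cases h : ∀ s, P s t = true
      · exact ⟨0, fun _ => h⟩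
      · push Not at h
        obtain ⟨s, hs⟩ := h
        exact ⟨s, fun h' => absurd h' hs⟩) (bd b.size)
  obtain ⟨c, hc, hr⟩ := hu (max M b.size)
  have hbr : b < 2 ^ lo c := Nat.size_le.1 (le_trans (le_max_right _ _) hr)
  have hcd := lo_dvd (h0 c hc)
  have hcb := testBit_lo (h0 c hc)
  have hrs : lo c < c.size := Nat.lt_size.2 (Nat.ge_two_pow_of_testBit hcb)
  have hlt : b < c := lt_of_lt_of_le hbr (Nat.ge_two_pow_of_testBit hcb)
  have e := h2 b hb c hc hlt
  rw [size_add hbr hcd (h0 c hc)] at e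
  obtain ⟨U, hU⟩ := gs_add (psi P c.size) hcd hcb hrs.le
  have e0 := hU 0 (Nat.two_pow_pos _)
  rw [zero_add, zero_add, gs_zero _ (Nat.zero_le (lo c)) (fun j _ hj => testBit_of_dvd dvd_rfl hj)]
    at e0
  have hbs : 0 < b.size := Nat.size_pos.2 (h0 b hb)
  obtain ⟨p0, hp0⟩ : ∃ p0, b.size = p0 + 1 := ⟨b.size - 1, by omega⟩
  have h1 : 2 ^ p0 ≤ b := Nat.lt_size.1 (by omega)
  have h1' : b < 2 ^ (p0 + 1) := Nat.size_le.1 hp0.le
  have hpr : p0 < lo c := by have := le_trans (le_max_right _ _) hr; omega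
  have hM' : M ≤ lo c := le_trans (le_max_left _ _) hr
  have etop : psi P c.size p0 (lo c) = 1 := by
    unfold psi
    rw [ball_iff.2]
    · rfl
    · intro t' ht'
      cases h : P (lo c) t' with
      | false => rfl
      | true =>
        have := hM t' (lt_of_lt_of_le ht' (bd_mono (by omega))) (hm _ _ _ hM' h) c.size
        simp [this]
  rw [hU b hbr, e0, gs_top _ h1 h1' hpr, etop] at e
  have hne : gs (psi P c.size) (b + 2 ^ lo c) p0 ≠ 0 := by
    intro h
    rw [h] at e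
    have : gs (psi P c.size) (2 ^ lo c) 0 = 0 := by simp [gs_eq]
    omega
  rw [gs_eq] at hne
  obtain ⟨p, hp1, hp2⟩ := Finset.exists_ne_zero_of_sum_ne_zero hne
  have hpp : p < p0 := Finset.mem_range.1 hp1
  have hbit : (b + 2 ^ lo c).testBit p = true := by
    cases h : (b + 2 ^ lo c).testBit p with
    | true => rfl
    | false => simp [h] at hp2
  rw [hbit] at hp2
  have hbit' : b.testBit p = true := by
    rwa [testBit_add hbr dvd_rfl, if_pos (by omega)] at hbit
  have htop : (b + 2 ^ lo c).testBit p0 = true := by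
    rw [testBit_add hbr dvd_rfl, if_pos hpr]
    exact Nat.testBit_of_two_pow_le_and_two_pow_add_one_gt h1 h1'
  have hq := (fs_spec (show p + 1 ≤ p0 by omega) htop).1
  generalize fs (b + 2 ^ lo c) (p + 1) = q at hq hp2
  have hall : ball (fun t => !P q t || P c.size t) (bd p) = true := by
    cases h : ball (fun t => !P q t || P c.size t) (bd p) with
    | true => rfl
    | false => simp [psi, h] at hp2
  have ht1 : t < bd p := lt_of_lt_of_le ht (bd_mono (lo_le hbit'))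
  have h3 := ball_iff.1 hall t ht1
  rw [hm q b.size t (by omega) hp] at h3
  have h4 : P c.size t = true := by simpa using h3
  exact hM t (lt_of_lt_of_le ht1 (bd_mono (by omega))) (hm _ _ _ (by omega) h4) s

theorem exists_spread {H : Set ℕ} (hu : ∀ j, ∃ a ∈ H, j ≤ lo a) (e : ℕ) :
    ∃ W, ∀ g : ℕ → ℕ, ∃ z ∈ H, z < W ∧ ∀ e' < e, g e' ≠ lo z := by
  have hinf : (lo '' H).Infinite := by
    refine Set.infinite_of_not_bddAbove ?_
    rintro ⟨B, hB⟩
    obtain ⟨a, ha, h⟩ := hu (B + 1)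
    have := hB ⟨a, ha, rfl⟩
    omega
  obtain ⟨T, hT, hc⟩ := hinf.exists_subset_card_eq (e + 1)
  have : ∀ t, ∃ z, t ∈ T → z ∈ H ∧ lo z = t := by
    intro t
    by_cases ht : t ∈ T
    · obtain ⟨z, hz, e⟩ := hT ht
      exact ⟨z, fun _ => ⟨hz, e⟩⟩
    · exact ⟨0, fun h => absurd h ht⟩
  choose f hf using this
  refine ⟨T.sup f + 1, fun g => ?_⟩
  obtain ⟨t, ht, hn⟩ := Finset.exists_mem_notMem_of_card_lt_card
    (s := (Finset.range e).image g) (t := T)
    (lt_of_le_of_lt Finset.card_image_le (by simp [hc]))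
  refine ⟨f t, (hf t ht).1, Nat.lt_succ_of_le (Finset.le_sup (f := f) ht), fun e' he h => hn ?_⟩
  rw [(hf t ht).2] at h
  exact Finset.mem_image.2 ⟨e', Finset.mem_range.2 he, h⟩

theorem main (hm : ∀ s s' t, s ≤ s' → P s' t = true → P s t = true) {H : Set ℕ}
    (h0 : ∀ x ∈ H, 0 < x) (hi : H.Infinite) {e : ℕ}
    (he : ∀ x, x ∈ H ↔ ∀ u, ∃ v, ∀ s, P s (code e x u v) = true) {i : ℕ}
    (h1 : ∀ x ∈ H, col P x = i) (h2 : ∀ x ∈ H, ∀ y ∈ H, x < y → col P (x + y) = i)
    (h3 : ∀ x ∈ H, ∀ y ∈ H, ∀ z ∈ H, x < y → y < z → col P (x + y + z) = i) : False := by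
  have hu : ∀ j, ∃ a ∈ H, j ≤ lo a := lo_unbounded h0 hi fun x hx y hy h => by
    have a1 := h1 x hx
    have a2 := h2 x hx y hy h
    unfold col at a1 a2
    omega
  have hlong := @long_gap P hm H h0 hu fun x hx y hy h => by
    have a1 := h1 y hy
    have a2 := h2 x hx y hy h
    unfold col at a1 a2
    omega
  have hfail : ∀ X, ∃ K, ∀ x < X,
      (∀ u < K, ∃ v, ∀ s, P s (code e x u v) = true) → x ∈ H := by
    refine exists_bound (fun x k k' hk h h' => h fun u hu => h' u (lt_of_lt_of_le hu hk))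
      fun x => ?_
    by_cases hx : x ∈ H
    · exact ⟨0, fun _ => hx⟩
    · have := mt (he x).2 hx
      rw [not_forall] at this
      obtain ⟨u, hu⟩ := this
      exact ⟨u + 1, fun h => absurd (h u (Nat.lt_succ_self u)) hu⟩
  have hsucc : ∀ K X, ∃ Q, ∀ x < X, x ∈ H →
      ∀ u < K, ∃ v < Q, ∀ s, P s (code e x u v) = true := by
    intro K
    refine exists_bound (fun x k k' hk h hx u hu => ?_) fun x => ?_
    · obtain ⟨v, hv, h'⟩ := h hx u hu
      exact ⟨v, lt_of_lt_of_le hv hk, h'⟩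
    · by_cases hx : x ∈ H
      · obtain ⟨Q, hQ⟩ := exists_bound
          (Q := fun u k => ∃ v < k, ∀ s, P s (code e x u v) = true)
          (fun u k k' hk ⟨v, hv, h⟩ => ⟨v, lt_of_lt_of_le hv hk, h⟩)
          (fun u => by
            obtain ⟨v, hv⟩ := (he x).1 hx u
            exact ⟨v + 1, v, Nat.lt_succ_self v, hv⟩) K
        exact ⟨Q, fun _ => hQ⟩
      · exact ⟨0, fun h => absurd h hx⟩
  obtain ⟨W, hW⟩ := exists_spread hu e
  obtain ⟨K1, hK1⟩ := hfail W
  obtain ⟨a0, ha0, hj⟩ := hu (W + K1 + e + 1)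
  have ha0b := Nat.ge_two_pow_of_testBit (testBit_lo (h0 a0 ha0))
  have hs0 : lo a0 < a0.size := Nat.lt_size.2 ha0b
  obtain ⟨p, hp⟩ : ∃ p, a0.size = p + 1 := ⟨a0.size - 1, by omega⟩
  obtain ⟨K2, hK2⟩ := hfail (2 ^ (p + 1))
  obtain ⟨Q1, hQ1⟩ := hsucc p W
  obtain ⟨Q2, hQ2⟩ := hsucc K2 (2 ^ (p + 1))
  obtain ⟨b, hb, hq⟩ := hu (Q1 + Q2 + K2 + p + 1)
  have hbd := lo_dvd (h0 b hb)
  have hbb := testBit_lo (h0 b hb)
  have hble := Nat.ge_two_pow_of_testBit hbb
  have hqs : lo b < b.size := Nat.lt_size.2 hble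
  have hlong' := fun t ht hp s => @hlong b hb t ht hp s
  generalize lo b = q at hq hbd hbb hble hqs hlong'
  set s := b.size with hs
  have hq2 : q < 2 ^ q := Nat.lt_two_pow_self
  have hpq : 2 ^ (p + 1) ≤ 2 ^ q := Nat.pow_le_pow_right (by norm_num) (by omega)
  have hp2 : p < 2 ^ p := Nat.lt_two_pow_self
  have hpp : 2 ^ (p + 1) = 2 * 2 ^ p := by ring
  have hok : ∀ x k, x ≤ 2 ^ q → k ≤ q → (ok P s e x k q = true ↔
      ∀ u < k, ∃ v < q, ∀ s, P s (code e x u v) = true) := by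
    intro x k hx hk
    unfold ok
    simp only [ball_iff, bex_iff]
    constructor
    · intro h u hu
      obtain ⟨v, hv, h'⟩ := h u hu
      exact ⟨v, hv, hlong' _ (code_lt (by omega) hx (by omega) (by omega)) h'⟩
    · intro h u hu
      obtain ⟨v, hv, h'⟩ := h u hu
      exact ⟨v, hv, h' s⟩
  -- the first element
  obtain ⟨z0, hz0, hz0W, hz0g⟩ := hW fun e' => lo (pick P p q s e')
  have hpk : pick P p q s e = least (fun z => ok P s e z p q &&
      ball (fun e' => !decide (lo ((tab (pickG P p q s) e).getD e' 0) = lo z)) e) p := rfl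
  have hball : ∀ z, ball (fun e' => !decide (lo ((tab (pickG P p q s) e).getD e' 0) = lo z)) e
      = true ↔ ∀ e' < e, lo (pick P p q s e') ≠ lo z := by
    intro z
    rw [ball_iff]
    refine forall₂_congr fun e' he' => ?_
    rw [tab_getD _ he']
    simp [pick]
  obtain ⟨hz1, hz2, -⟩ := least_spec (f := fun z => ok P s e z p q &&
      ball (fun e' => !decide (lo ((tab (pickG P p q s) e).getD e' 0) = lo z)) e)
      (N := p) (i := z0) (by omega) (by
        rw [Bool.and_eq_true, hball, hok _ _ (by omega) (by omega)]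
        refine ⟨fun u hu => ?_, hz0g⟩
        obtain ⟨v, hv, h⟩ := hQ1 z0 hz0W hz0 u hu
        exact ⟨v, by omega, h⟩)
  rw [← hpk] at hz1 hz2
  rw [Bool.and_eq_true, hball, hok _ _ (by omega) (by omega)] at hz2
  set z := pick P p q s e with hz
  have hzH : z ∈ H := hK1 z (by omega) fun u hu => by
    obtain ⟨v, -, h⟩ := hz2.1 u (by omega)
    exact ⟨v, h⟩
  have hwho : who P (lo z) p q s = e := by
    obtain ⟨w1, w2, -⟩ := least_spec (f := fun e => decide (lo (pick P p q s e) = lo z))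
      (N := p) (i := e) (by omega) (by simp [hz])
    by_contra hne
    exact hz2.2 _ (lt_of_le_of_ne w1 hne) (by simpa using w2)
  -- the second element
  have hla : lo a0 < 2 ^ lo a0 := Nat.lt_two_pow_self
  have hza : z < 2 ^ lo a0 := by omega
  have ha0lt : a0 < 2 ^ (p + 1) := Nat.size_le.1 hp.le
  have hc0 : cand (lo z) p z a0 = true := by
    unfold cand
    have b1 : 2 ^ p ≤ a0 := Nat.lt_size.1 (by omega)
    have b2 : z + a0 < 2 ^ (p + 1) :=
      Nat.size_le.1 (by rw [size_add hza (lo_dvd (h0 a0 ha0)) (h0 a0 ha0)]; omega)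
    have b3 := lo_add (h0 z hzH) hza (lo_dvd (h0 a0 ha0))
    simp only [Bool.and_eq_true, decide_eq_true_eq]
    exact ⟨⟨⟨by omega, by omega⟩, b2⟩, b3⟩
  obtain ⟨v1, v2, -⟩ := least_spec (f := fun i => bex (fun a => cand (lo z) p z a &&
      ok P s e a (q - i) q) (2 ^ (p + 1))) (N := q + 1) (i := q - K2) (by omega) (by
        rw [bex_iff]
        refine ⟨a0, ha0lt, ?_⟩
        rw [Bool.and_eq_true, hok _ _ (by omega) (by omega)]
        refine ⟨hc0, fun u hu => ?_⟩
        obtain ⟨v, hv, h⟩ := hQ2 a0 ha0lt ha0 u (by omega)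
        exact ⟨v, by omega, h⟩)
  change lev P (lo z) p q s e z ≤ _ at v1
  change bex (fun a => cand (lo z) p z a && ok P s e a (q - lev P (lo z) p q s e z) q) _ = true
    at v2
  obtain ⟨a1, ha1, ha1'⟩ := bex_iff.1 v2
  obtain ⟨m1, m2, -⟩ := least_spec (f := fun a => cand (lo z) p z a &&
      ok P s e a (q - lev P (lo z) p q s e z) q) ha1 ha1'
  change mid P (lo z) p q s e z ≤ _ at m1
  change (cand (lo z) p z (mid P (lo z) p q s e z) &&
    ok P s e (mid P (lo z) p q s e z) (q - lev P (lo z) p q s e z) q) = true at m2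
  set a := mid P (lo z) p q s e z with ha
  rw [Bool.and_eq_true, hok _ _ (by omega) (by omega)] at m2
  have haH : a ∈ H := hK2 a (by omega) fun u hu => by
    obtain ⟨v, -, h⟩ := m2.2 u (by omega)
    exact ⟨v, h⟩
  have hc := m2.1
  unfold cand at hc
  simp only [Bool.and_eq_true, decide_eq_true_eq] at hc
  obtain ⟨⟨⟨c1, c2⟩, c3⟩, c4⟩ := hc
  have hx : z + a < 2 ^ q := by omega
  have hzq : z < 2 ^ q := by omega
  have hzpos := h0 z hzH
  have hphi := phi_eq P (l := lo z) (s := s) (p := p) (q := q) (z := z) (a := a) (by omega) hqs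
    (by rw [hwho]) (by rw [hwho]) hx
  have a3 := h3 z hzH a haH b hb c1 (by omega)
  have a2 := h2 z hzH b hb (by omega)
  unfold col at a3 a2
  rw [size_add hx hbd (h0 b hb), lo_add (by omega) hx hbd, c4] at a3
  rw [size_add hzq hbd (h0 b hb), lo_add hzpos hzq hbd] at a2
  obtain ⟨U, hU⟩ := gs_add (phi P (lo z) s) hbd hbb hqs.le
  rw [← hs] at a2 a3
  rw [hU _ hx, gs_top _ c2 c3 (by omega), hphi] at a3
  rw [hU _ hzq, gs_zero (phi P (lo z) s) (n := z + 2 ^ q) (show p ≤ q by omega) (fun j hj hl => by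
    rw [testBit_add hzq dvd_rfl, if_pos hl]
    exact Nat.testBit_lt_two_pow (lt_of_lt_of_le (show z < 2 ^ p by omega)
      (Nat.pow_le_pow_right (by norm_num) hj)))] at a2
  omega

end Pool.Agent.P.MP_c0e71b_lc
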