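import Pool.Agent.P.MP_0db899_lc.FP

/-! Bounded quantifiers, course-of-values recursion and binary digits, with computability. -/

namespace Pool.Agent.P.MP_c0e71b_lc

open Pool.Agent.P.MP_0db899_lc

variable {α σ : Type} [Primcodable α] [Primcodable σ]

/-- Bounded universal quantifier. -/
def ball (f : ℕ → Bool) (N : ℕ) : Bool := iter true (fun i acc => acc && f i) N

@[fun_prop] theorem c_ball {f : α → ℕ → Bool} {N : α → ℕ}
    (hf : Computable fun p : α × ℕ => f p.1 p.2) (hN : Computable N) :
    Computable fun a => ball (f a) (N a) := by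
  unfold ball
  have : Computable fun p : α × ℕ × Bool => f p.1 p.2.1 :=
    hf.comp (g := fun p : α × ℕ × Bool => (p.1, p.2.1)) (by fun_prop)
  fun_prop

theorem ball_iff {f : ℕ → Bool} {N : ℕ} : ball f N = true ↔ ∀ i < N, f i = true := by
  unfold ball
  induction N with
  | zero => simp [iter]
  | succ n ih =>
    simp only [iter, Bool.and_eq_true, ih]
    constructor
    · rintro ⟨h1, h2⟩ i hi
      rcases Nat.lt_succ_iff_lt_or_eq.1 hi with h | rfl
      · exact h1 i h
      · exact h2
    · intro h
      exact ⟨fun i hi => h i (Nat.lt_succ_of_lt hi), h n (Nat.lt_succ_self n)⟩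

/-- Bounded existential quantifier. -/
def bex (f : ℕ → Bool) (N : ℕ) : Bool := !ball (fun i => !f i) N

@[fun_prop] theorem c_bex {f : α → ℕ → Bool} {N : α → ℕ}
    (hf : Computable fun p : α × ℕ => f p.1 p.2) (hN : Computable N) :
    Computable fun a => bex (f a) (N a) := by
  unfold bex
  fun_prop

theorem bex_iff {f : ℕ → Bool} {N : ℕ} : bex f N = true ↔ ∃ i < N, f i = true := by
  unfold bex
  rw [Bool.not_eq_true', ← Bool.not_eq_true, ball_iff]
  simp

omit [Primcodable σ] in
theorem bfind_least {f : ℕ → Option σ} {N : ℕ} {v : σ} (h : bfind f N = some v) :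
    ∃ i < N, f i = some v ∧ ∀ j < i, f j = none := by
  induction N with
  | zero => simp [bfind, iter] at h
  | succ n ih =>
    cases hacc : bfind f n with
    | some w =>
      have h2 : bfind f (n + 1) = some w := by
        unfold bfind at hacc ⊢
        simp only [iter, hacc]
        rfl
      have hw : w = v := by rw [h2] at h; simpa using h
      obtain ⟨i, hi, hv⟩ := ih (hw ▸ hacc)
      exact ⟨i, Nat.lt_succ_of_lt hi, hv⟩
    | none =>
      have h2 : bfind f (n + 1) = f n := by
        unfold bfind at hacc ⊢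
        simp only [iter, hacc]
        rfl
      exact ⟨n, Nat.lt_succ_self n, h2 ▸ h, bfind_eq_none.1 hacc⟩

/-- The least `i < N` with `f i`, and `0` if there is none. -/
def least (f : ℕ → Bool) (N : ℕ) : ℕ := (bfind (fun i => cond (f i) (some i) none) N).getD 0

@[fun_prop] theorem c_least {f : α → ℕ → Bool} {N : α → ℕ}
    (hf : Computable fun p : α × ℕ => f p.1 p.2) (hN : Computable N) :
    Computable fun a => least (f a) (N a) := by
  unfold least
  fun_prop

theorem least_spec {f : ℕ → Bool} {N i : ℕ} (hi : i < N) (h : f i = true) :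
    least f N ≤ i ∧ f (least f N) = true ∧ ∀ j < least f N, f j = false := by
  unfold least
  cases hb : bfind (fun i => cond (f i) (some i) none) N with
  | none =>
    have := bfind_eq_none.1 hb i hi
    simp [h] at this
  | some v =>
    obtain ⟨k, -, h1, h2⟩ := bfind_least hb
    have hk : f k = true := by
      cases hf : f k with
      | true => rfl
      | false => simp [hf] at h1
    have hv : k = v := by simpa [hk] using h1
    subst hv
    have h3 : ∀ j < k, f j = false := by
      intro j hj
      have := h2 j hj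
      cases hf : f j with
      | false => rfl
      | true => simp [hf] at this
    refine ⟨?_, hk, h3⟩
    by_contra hlt
    have := h3 i (by simpa using hlt)
    simp [h] at this

theorem least_none {f : ℕ → Bool} {N : ℕ} (h : ∀ i < N, f i = false) : least f N = 0 := by
  unfold least
  rw [bfind_eq_none.2 fun i hi => by simp [h i hi]]
  rfl

theorem bsum_eq (f : ℕ → ℕ) (N : ℕ) : bsum f N = ∑ i ∈ Finset.range N, f i := by
  unfold bsum
  induction N with
  | zero => simp [iter]
  | succ n ih => simp only [iter, ih, Finset.sum_range_succ]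

@[fun_prop] theorem c_listGetD {L : α → List ℕ} {f : α → ℕ} (hL : Computable L)
    (hf : Computable f) : Computable fun a => (L a).getD (f a) 0 :=
  (Primrec.list_getD 0).to_comp.comp hL hf

@[fun_prop] theorem c_concat {L : α → List ℕ} {f : α → ℕ} (hL : Computable L)
    (hf : Computable f) : Computable fun a => L a ++ [f a] :=
  Computable.list_concat.comp hL hf

/-- The table of the first values of a course-of-values recursion. -/
def tab (g : ℕ → List ℕ → ℕ) (n : ℕ) : List ℕ := iter [] (fun m L => L ++ [g m L]) n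

/-- Course-of-values recursion. -/
def cov (g : ℕ → List ℕ → ℕ) (m : ℕ) : ℕ := g m (tab g m)

@[fun_prop] theorem c_cov {g : α → ℕ → List ℕ → ℕ} {f : α → ℕ}
    (hg : Computable fun p : α × ℕ × List ℕ => g p.1 p.2.1 p.2.2) (hf : Computable f) :
    Computable fun a => cov (g a) (f a) := by
  have h1 : Computable fun a => tab (g a) (f a) := by
    unfold tab
    fun_prop
  exact hg.comp (g := fun a => (a, f a, tab (g a) (f a))) (by fun_prop)

theorem tab_length (g : ℕ → List ℕ → ℕ) (n : ℕ) : (tab g n).length = n := by
  induction n with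
  | zero => rfl
  | succ n ih =>
    have : tab g (n + 1) = tab g n ++ [g n (tab g n)] := rfl
    rw [this, List.length_append, ih]
    rfl

theorem tab_getD (g : ℕ → List ℕ → ℕ) {m n : ℕ} (h : m < n) :
    (tab g n).getD m 0 = cov g m := by
  induction n with
  | zero => omega
  | succ n ih =>
    have e : tab g (n + 1) = tab g n ++ [g n (tab g n)] := rfl
    rw [e]
    rcases Nat.lt_succ_iff_lt_or_eq.1 h with h1 | rfl
    · rw [List.getD_append _ _ _ _ (by rw [tab_length]; exact h1)]
      exact ih h1
    · rw [List.getD_append_right _ _ _ _ (by rw [tab_length]), tab_length]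
      simp [cov]

theorem computable_size : Computable Nat.size := by
  have hex : ∀ n : ℕ, ∃ k, decide (n < 2 ^ k) = true :=
    fun n => ⟨n.size, by simpa using Nat.lt_size_self n⟩
  have := computable_find (p := fun n k : ℕ => decide (n < 2 ^ k)) (by fun_prop) hex
  refine this.of_eq fun n => ?_
  rw [Nat.find_eq_iff]
  refine ⟨by simpa using Nat.lt_size_self n, fun m hm => ?_⟩
  simpa using Nat.lt_size.1 hm

@[fun_prop] theorem c_size {f : α → ℕ} (hf : Computable f) :
    Computable fun a => (f a).size := computable_size.comp hf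

/-- A universal family of decreasing stage approximations. -/
theorem exists_universal : ∃ P : ℕ → ℕ → Bool, Computable (fun p : ℕ × ℕ => P p.1 p.2) ∧
    (∀ s s' t, s ≤ s' → P s' t = true → P s t = true) ∧
    ∀ R : ℕ × ℕ × ℕ × ℕ → Prop, ComputablePred R → ∃ e, ∀ x u v,
      (∀ w, R (x, u, v, w)) ↔ ∀ s, P s (Nat.pair e (Nat.pair x (Nat.pair u v))) = true := by
  let ev : ℕ → ℕ → ℕ → Option ℕ := fun s e n =>
    Nat.Partrec.Code.evaln s (Denumerable.ofNat Nat.Partrec.Code e) n
  have hev : Computable fun p : ℕ × ℕ × ℕ => ev p.1 p.2.1 p.2.2 := by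
    have h1 : Computable fun p : ℕ × ℕ × ℕ => Denumerable.ofNat Nat.Partrec.Code p.2.1 :=
      (Computable.ofNat _).comp (by fun_prop)
    exact Nat.Partrec.Code.primrec_evaln.to_comp.comp
      (g := fun p : ℕ × ℕ × ℕ => ((p.1, Denumerable.ofNat Nat.Partrec.Code p.2.1), p.2.2))
      (by fun_prop)
  refine ⟨fun s t => ball (fun w => !(ev s (Nat.unpair t).1
    (Nat.pair (Nat.unpair (Nat.unpair t).2).1 (Nat.pair (Nat.unpair (Nat.unpair (Nat.unpair t).2).2).1
      (Nat.pair (Nat.unpair (Nat.unpair (Nat.unpair t).2).2).2 w)))).isSome) s, ?_, ?_, ?_⟩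
  · refine c_ball (c_not (c_isSome ?_)) (by fun_prop)
    exact hev.comp (g := fun p : (ℕ × ℕ) × ℕ => (p.1.1, (Nat.unpair p.1.2).1,
      (Nat.pair (Nat.unpair (Nat.unpair p.1.2).2).1
        (Nat.pair (Nat.unpair (Nat.unpair (Nat.unpair p.1.2).2).2).1
      (Nat.pair (Nat.unpair (Nat.unpair (Nat.unpair p.1.2).2).2).2 p.2))))) (by fun_prop)
  · intro s s' t hs h
    rw [ball_iff] at h ⊢
    intro w hw
    have h1 := h w (lt_of_lt_of_le hw hs)
    simp only [Bool.not_eq_true', Option.isSome_eq_false_iff, Option.isNone_iff_eq_none] at h1 ⊢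
    by_contra hne
    obtain ⟨y, hy⟩ := Option.ne_none_iff_exists'.1 hne
    have := Nat.Partrec.Code.evaln_mono hs hy
    simp only [ev] at h1
    rw [h1] at this
    simp at this
  · intro R hR
    have hre : REPred fun a => ¬ R a := hR.not.to_re
    obtain ⟨c, hc⟩ := Nat.Partrec.Code.exists_code.1 hre
    have key : ∀ a : ℕ × ℕ × ℕ × ℕ, (c.eval (Encodable.encode a)).Dom ↔ ¬ R a := by
      intro a
      rw [hc]
      simp only [Encodable.encodek]
      simp [Part.assert]
    refine ⟨Encodable.encode c, fun x u v => ?_⟩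
    have henc : ∀ w, Encodable.encode ((x, u, v, w) : ℕ × ℕ × ℕ × ℕ)
        = Nat.pair x (Nat.pair u (Nat.pair v w)) := fun w => rfl
    simp only [Nat.unpair_pair, ball_iff, ev, Denumerable.ofNat_encode]
    constructor
    · intro h s w _
      simp only [Bool.not_eq_true', Option.isSome_eq_false_iff, Option.isNone_iff_eq_none]
      by_contra hne
      obtain ⟨y, hy⟩ := Option.ne_none_iff_exists'.1 hne
      have := Nat.Partrec.Code.evaln_sound hy
      rw [← henc] at this
      exact (key _).1 (Part.dom_iff_mem.2 ⟨y, this⟩) (h w)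
    · intro h w
      by_contra hn
      obtain ⟨y, hy⟩ := Part.dom_iff_mem.1 ((key _).2 hn)
      obtain ⟨k, hk⟩ := Nat.Partrec.Code.evaln_complete.1 hy
      have h1 := Nat.Partrec.Code.evaln_mono (le_max_left k (w + 1)) hk
      have h2 := h (max k (w + 1)) w (lt_of_lt_of_le (Nat.lt_succ_self w) (le_max_right _ _))
      rw [henc] at h1
      rw [Option.mem_def.1 h1] at h2
      simp at h2

end Pool.Agent.P.MP_c0e71b_lc
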